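import Pool.Agent.helper48.SO.Spec

set_option autoImplicit false

namespace SOL

open Finset

theorem FIR : FIR_stmt := by
  intro S n p k t hp hpS hS hn ht
  have hq : (1 : ℝ) ≤ ((p ^ k : ℕ) : ℝ) := by
    exact_mod_cast Nat.one_le_pow k p hp.pos
  have htp : 1 ≤ t p := ht p
  have hD : 0 < (((p ^ k : ℕ) : ℝ) - 1) * t p + 1 := by
    have h1 : 0 ≤ (((p ^ k : ℕ) : ℝ) - 1) * t p := mul_nonneg (by linarith) (by linarith)
    linarith
  have hfac : ∀ ℓ, (p ^ k * n).factorization ℓ = (if ℓ = p then k else 0) + n.factorization ℓ := by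
    intro ℓ
    rw [Nat.factorization_mul (pow_ne_zero k hp.ne_zero) hn.ne', Finsupp.add_apply,
      hp.factorization_pow]
    by_cases h : ℓ = p
    · subst h
      rw [Finsupp.single_eq_same, if_pos rfl]
    · rw [Finsupp.single_eq_of_ne h, if_neg h]
  unfold Fi
  rw [← Finset.mul_prod_erase S _ hpS, ← Finset.mul_prod_erase S _ hpS, ← mul_assoc]
  have h1 : ((((p ^ k : ℕ) : ℝ) - 1) * t p + 1) *
      (1 + ((p : ℝ) ^ (n.factorization p) - 1) * nw t p (p ^ k) p) =
      1 + ((p : ℝ) ^ ((p ^ k * n).factorization p) - 1) * t p := by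
    rw [hfac, if_pos rfl, pow_add]
    unfold nw
    rw [Function.update_self]
    have h2 : (((p ^ k : ℕ) : ℝ)) = (p : ℝ) ^ k := by push_cast; rfl
    rw [h2] at hD ⊢
    field_simp
    ring
  rw [h1]
  congr 1
  refine Finset.prod_congr rfl (fun ℓ hℓ => ?_)
  have hne : ℓ ≠ p := Finset.ne_of_mem_erase hℓ
  rw [hfac, if_neg hne, zero_add]
  unfold nw
  rw [Function.update_of_ne hne]

end SOL

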